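import Mathlib

/-! # Project PD, third part (jobs of helper153): means of periodic functions -/

set_option autoImplicit false

namespace Pool.Agent.Q153.PD3

open Finset Filter Topology

theorem sum_shift {q : ℕ} {f : ℤ → ℝ} (hf : ∀ a, f (a + q) = f a) (N : ℕ) :
    ∑ i ∈ range q, f ((N : ℤ) + i) = ∑ i ∈ range q, f i := by
  induction N with
  | zero => simp
  | succ N ih =>
    rw [← ih]
    have h1 := Finset.sum_range_succ (fun i : ℕ => f ((N : ℤ) + i)) q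
    have h2 := Finset.sum_range_succ' (fun i : ℕ => f ((N : ℤ) + i)) q
    rw [h1] at h2
    have h3 : f ((N : ℤ) + (0 : ℕ)) = f N := by simp
    rw [hf, h3] at h2
    have h4 := add_right_cancel h2
    rw [h4]
    refine Finset.sum_congr rfl fun i _ => ?_
    congr 1
    push_cast
    ring

theorem sum_Icc_eq (f : ℤ → ℝ) (N : ℕ) : ∑ a ∈ Icc (1 : ℤ) N, f a = ∑ i ∈ range N, f ((i : ℤ) + 1) := by
  symm
  apply Finset.sum_bij (fun (i : ℕ) _ => (i : ℤ) + 1)
  · intro i hi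
    rw [mem_range] at hi
    rw [mem_Icc]
    omega
  · intro i _ j _ h
    omega
  · intro a ha
    rw [mem_Icc] at ha
    refine ⟨(a - 1).toNat, ?_, ?_⟩
    · rw [mem_range]
      omega
    · omega
  · intro i _
    rfl

theorem per_bound {q : ℕ} (hq : 0 < q) {f : ℤ → ℝ} (hf : ∀ a, f (a + q) = f a) :
    ∃ M : ℝ, 0 ≤ M ∧ ∀ N : ℕ, |∑ a ∈ Icc (1 : ℤ) N, f a - N / q * ∑ b ∈ range q, f b| ≤ M := by
  have hq' : (q : ℝ) ≠ 0 := by exact_mod_cast hq.ne'
  set S : ℝ := ∑ b ∈ range q, f b with hS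
  set g : ℕ → ℝ := fun N => ∑ i ∈ range N, f ((i : ℤ) + 1) - N / q * S with hg
  have hper : Function.Periodic g q := by
    intro N
    have h1 : ∑ i ∈ range (N + q), f ((i : ℤ) + 1) = ∑ i ∈ range N, f ((i : ℤ) + 1) + S := by
      rw [Finset.sum_range_add, hS, ← sum_shift hf (N + 1)]
      congr 1
      refine Finset.sum_congr rfl fun i _ => ?_
      congr 1
      push_cast
      ring
    simp only [hg]
    rw [h1]
    push_cast
    field_simp
    ring
  refine ⟨∑ i ∈ range q, |g i|, Finset.sum_nonneg fun _ _ => abs_nonneg _, fun N => ?_⟩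
  rw [sum_Icc_eq]
  have h2 : g (N % q) = g N := hper.map_mod_nat N
  have h3 : ∑ i ∈ range N, f ((i : ℤ) + 1) - N / q * S = g (N % q) := h2.symm
  rw [h3]
  exact Finset.single_le_sum (f := fun i => |g i|) (fun _ _ => abs_nonneg _)
    (mem_range.2 (Nat.mod_lt N hq))

theorem mean_per {q : ℕ} (hq : 0 < q) {f : ℤ → ℝ} (hf : ∀ a, f (a + q) = f a) :
    Tendsto (fun N : ℕ => (∑ a ∈ Icc (1 : ℤ) N, f a) / N) atTop (𝓝 ((∑ b ∈ range q, f b) / q)) := by
  obtain ⟨M, hM0, hM⟩ := per_bound hq hf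
  have hq' : (q : ℝ) ≠ 0 := by exact_mod_cast hq.ne'
  rw [tendsto_iff_norm_sub_tendsto_zero]
  have h1 : Tendsto (fun N : ℕ => M / (N : ℝ)) atTop (𝓝 0) :=
    tendsto_const_div_atTop_nhds_zero_nat M
  refine squeeze_zero' (Eventually.of_forall fun _ => norm_nonneg _) ?_ h1
  filter_upwards [eventually_gt_atTop 0] with N hN
  have hN' : (0 : ℝ) < N := by exact_mod_cast hN
  have h2 := hM N
  have h3 : (∑ a ∈ Icc (1 : ℤ) N, f a) / N - (∑ b ∈ range q, f b) / q =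
      (∑ a ∈ Icc (1 : ℤ) N, f a - N / q * ∑ b ∈ range q, f b) / N := by
    field_simp
  rw [h3, norm_div, Real.norm_eq_abs, Real.norm_of_nonneg hN'.le]
  exact div_le_div_of_nonneg_right h2 hN'.le

theorem per_mul {q : ℤ} {f : ℤ → ℝ} (hf : ∀ a, f (a + q) = f a) (a t : ℤ) : f (a + q * t) = f a := by
  have h : Function.Periodic f q := hf
  have := h.int_mul t a
  rw [mul_comm] at this
  simpa using this

theorem per_dvd {q : ℤ} {f : ℤ → ℝ} (hf : ∀ a, f (a + q) = f a) {a b : ℤ} (h : q ∣ a - b) :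
    f a = f b := by
  obtain ⟨t, ht⟩ := h
  have : a = b + q * t := by rw [← ht]; ring
  rw [this, per_mul hf]

/-- the sum over the residues modulo `3^(n+k)` of a class modulo `3^n` -/
theorem sum_class {n k : ℕ} (b : ℤ) {f : ℤ → ℝ} (hf : ∀ a, f (a + 3 ^ (n + k)) = f a) :
    ∑ r ∈ (range (3 ^ (n + k))).filter (fun r : ℕ => (3 : ℤ) ^ n ∣ (r : ℤ) - b), f r =
      ∑ i ∈ range (3 ^ k), f (b + 3 ^ n * i) := by
  have h3n : (0 : ℤ) < 3 ^ n := by positivity
  have h3nk : (0 : ℤ) < 3 ^ (n + k) := by positivity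
  have hpow : (3 : ℤ) ^ (n + k) = 3 ^ n * 3 ^ k := pow_add _ _ _
  have hnn : ∀ x : ℤ, 0 ≤ x % 3 ^ (n + k) := fun x => Int.emod_nonneg _ h3nk.ne'
  have hlt : ∀ x : ℤ, x % 3 ^ (n + k) < 3 ^ (n + k) := fun x => Int.emod_lt_of_pos _ h3nk
  have hdv : ∀ x : ℤ, (3 : ℤ) ^ (n + k) ∣ x - x % 3 ^ (n + k) := fun x => Int.dvd_self_sub_emod
  symm
  apply Finset.sum_bij (fun (i : ℕ) _ => ((b + 3 ^ n * (i : ℤ)) % 3 ^ (n + k)).toNat)
  · intro i _
    rw [mem_filter, mem_range]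
    constructor
    · zify
      rw [Int.toNat_of_nonneg (hnn _)]
      exact hlt _
    · rw [Int.toNat_of_nonneg (hnn _)]
      have h1 : (3 : ℤ) ^ n ∣ (b + 3 ^ n * (i : ℤ)) - (b + 3 ^ n * (i : ℤ)) % 3 ^ (n + k) :=
        (Dvd.intro _ hpow.symm).trans (hdv _)
      have h2 : (b + 3 ^ n * (i : ℤ)) % 3 ^ (n + k) - b =
          3 ^ n * i - ((b + 3 ^ n * (i : ℤ)) - (b + 3 ^ n * (i : ℤ)) % 3 ^ (n + k)) := by ring
      rw [h2]
      exact dvd_sub (dvd_mul_right _ _) h1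
  · intro i hi j hj h
    rw [mem_range] at hi hj
    have h1 : (b + 3 ^ n * (i : ℤ)) % 3 ^ (n + k) = (b + 3 ^ n * (j : ℤ)) % 3 ^ (n + k) := by
      have := congrArg (Nat.cast : ℕ → ℤ) h
      rwa [Int.toNat_of_nonneg (hnn _), Int.toNat_of_nonneg (hnn _)] at this
    have h2 : (3 : ℤ) ^ (n + k) ∣ (b + 3 ^ n * (i : ℤ)) - (b + 3 ^ n * (j : ℤ)) :=
      Int.ModEq.dvd (show _ ≡ _ [ZMOD _] from h1.symm)
    have h3 : (b + 3 ^ n * (i : ℤ)) - (b + 3 ^ n * (j : ℤ)) = 3 ^ n * ((i : ℤ) - j) := by ring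
    rw [h3, hpow] at h2
    have h4 : (3 : ℤ) ^ k ∣ (i : ℤ) - j := Int.dvd_of_mul_dvd_mul_left h3n.ne' h2
    have h5 : ((i : ℤ) - j).natAbs < 3 ^ k := by omega
    have h6 := Int.eq_zero_of_abs_lt_dvd h4 (by
      rw [Int.abs_eq_natAbs]
      exact_mod_cast h5)
    omega
  · intro r hr
    rw [mem_filter, mem_range] at hr
    obtain ⟨hr1, t, ht⟩ := hr
    have h3k : (0 : ℤ) < 3 ^ k := by positivity
    refine ⟨(t % 3 ^ k).toNat, ?_, ?_⟩
    · rw [mem_range]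
      zify
      rw [Int.toNat_of_nonneg (Int.emod_nonneg _ h3k.ne')]
      exact Int.emod_lt_of_pos _ h3k
    · rw [Int.toNat_of_nonneg (Int.emod_nonneg _ h3k.ne')]
      have h1 : (b + 3 ^ n * (t % 3 ^ k)) % 3 ^ (n + k) = (r : ℤ) % 3 ^ (n + k) := by
        apply Int.ModEq.symm
        rw [Int.modEq_iff_dvd]
        obtain ⟨s, hs⟩ : (3 : ℤ) ^ k ∣ t - t % 3 ^ k := Int.dvd_self_sub_emod
        have h2 : b + 3 ^ n * (t % 3 ^ k) - (r : ℤ) = 3 ^ (n + k) * (-s) := by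
          have h3 : (r : ℤ) = b + 3 ^ n * t := by linarith
          have h4 : t % 3 ^ k = t - 3 ^ k * s := by linarith
          rw [h3, h4, hpow]
          ring
        rw [h2]
        exact dvd_mul_right _ _
      rw [h1, Int.emod_eq_of_lt (by positivity) (by exact_mod_cast hr1)]
      exact Int.toNat_natCast r
  · intro i _
    rw [Int.toNat_of_nonneg (hnn _)]
    exact per_dvd hf (hdv _)

end Pool.Agent.Q153.PD3
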