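import Pool.Agent.Q74.PD.Stm3
import Pool.Agent.Q153.PD3.Per

/-! # Project PD, third part (jobs of helper153): mean values in the classes modulo `3^j` -/

set_option autoImplicit false

namespace Pool.Agent.Q153.PD3

open Finset Filter Topology MeasureTheory
open Pool.Agent.H499R2.ND Pool.Agent.H320R2.PD Pool.Agent.Y856.PD
open Pool.Agent.Q74.PD

theorem c0_pos : 0 < c0 := by
  unfold c0
  have : 0 < Real.log (4 / 3) := Real.log_pos (by norm_num)
  positivity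

theorem Dn_nn (hD : S_Dlm) {d : ℤ} (hd : IsCoprime d 3) (n : ℕ) (a : ℤ) : 0 ≤ Dn d n a :=
  ((hD d hd n).1 0 a).1.trans ((hD d hd n).1 0 a).2.1

theorem Dn_le (hD : S_Dlm) {d : ℤ} (hd : IsCoprime d 3) (n : ℕ) (a : ℤ) : Dn d n a ≤ 3 ^ n :=
  ((hD d hd n).1 0 a).2.2.1

theorem Dn_per (hD : S_Dlm) {d : ℤ} (hd : IsCoprime d 3) (n : ℕ) (a b : ℤ) :
    Dn d n (a + 3 ^ n * b) = Dn d n a := (hD d hd n).2.1 a b

theorem Dn_per1 (hD : S_Dlm) {d : ℤ} (hd : IsCoprime d 3) (n : ℕ) (a : ℤ) :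
    Dn d n (a + ((3 ^ n : ℕ) : ℤ)) = Dn d n a := by
  have := Dn_per hD hd n a 1
  rw [mul_one] at this
  rw [← this]
  push_cast
  rfl

open Classical in
theorem ex_small (hE : S_Exc) {d : ℤ} (hd : Odd d) :
    Tendsto (fun N : ℕ => (((Icc (1 : ℤ) N).filter (fun a => a ∈ Ex d)).card : ℝ) / N) atTop (𝓝 0) := by
  obtain ⟨c, hc, N₀, h⟩ := hE d hd
  have h1 : Tendsto (fun N : ℕ => (N : ℝ) ^ (-c)) atTop (𝓝 0) :=
    (tendsto_rpow_neg_atTop hc).comp tendsto_natCast_atTop_atTop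
  refine squeeze_zero' (Eventually.of_forall fun N => by positivity) ?_ h1
  filter_upwards [eventually_ge_atTop N₀, eventually_gt_atTop 0] with N hN hN0
  have hN' : (0 : ℝ) < N := by exact_mod_cast hN0
  have h2 := h N hN
  have h3 : {a : ℤ | 1 ≤ a ∧ a ≤ N ∧ a ∈ Ex d} = ((Icc (1 : ℤ) N).filter (fun a => a ∈ Ex d) : Finset ℤ) := by
    ext a
    simp only [Set.mem_setOf_eq, Finset.coe_filter, mem_Icc]
    tauto
  rw [h3, Set.ncard_coe_finset] at h2
  rw [div_le_iff₀ hN']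
  refine h2.trans (le_of_eq ?_)
  have h4 : (N : ℝ) ^ (1 - c) = (N : ℝ) ^ (1 : ℝ) * (N : ℝ) ^ (-c) := by
    rw [← Real.rpow_add hN']
    congr 1
  rw [h4, Real.rpow_one, mul_comm]

/-- **JOB Cla** -/
theorem cla (hE : S_Exc) (hA : S_All) (hD : S_Dlm) : S_Cla := by
  classical
  intro d hd h3 j r
  rw [Metric.tendsto_atTop]
  intro ε hε
  obtain ⟨n₀, hn₀⟩ := hA d hd h3 (ε / 4) (by positivity)
  obtain ⟨k, hk⟩ : ∃ k, n₀ ≤ j + k := ⟨n₀, by omega⟩
  obtain ⟨N₀, hN₀⟩ := hn₀ (j + k) hk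
  have hc0 := c0_pos
  -- the periodic function
  set f : ℤ → ℝ := fun a => if (3 : ℤ) ^ j ∣ a - r then c0 * Dn d (j + k) a else 0 with hf
  have hper : ∀ a, f (a + ((3 ^ (j + k) : ℕ) : ℤ)) = f a := by
    intro a
    simp only [hf]
    rw [Dn_per1 hD h3]
    have h1 : ((3 : ℤ) ^ j ∣ a + ((3 ^ (j + k) : ℕ) : ℤ) - r) ↔ (3 : ℤ) ^ j ∣ a - r := by
      have e : a + ((3 ^ (j + k) : ℕ) : ℤ) - r = (a - r) + 3 ^ j * 3 ^ k := by
        push_cast
        rw [pow_add]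
        ring
      rw [e]
      exact dvd_add_left (dvd_mul_right _ _)
    simp only [h1]
  have hmean := mean_per (by positivity : 0 < 3 ^ (j + k)) hper
  have hval : (∑ b ∈ range (3 ^ (j + k)), f b) / ((3 ^ (j + k) : ℕ) : ℝ) = c0 * (Dn d j r / 3 ^ j) := by
    have h1 : ∑ b ∈ range (3 ^ (j + k)), f b =
        ∑ b ∈ (range (3 ^ (j + k))).filter (fun b : ℕ => (3 : ℤ) ^ j ∣ (b : ℤ) - r),
          c0 * Dn d (j + k) b := by
      rw [Finset.sum_filter]
    have h2 := sum_class (n := j) (k := k) r (f := fun a => c0 * Dn d (j + k) a) (by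
      intro a
      have := Dn_per1 hD h3 (j + k) a
      push_cast at this
      simp only [this])
    rw [h1, h2, ← Finset.mul_sum, (hD d h3 j).2.2 k r]
    push_cast
    rw [pow_add]
    field_simp
  rw [hval, Metric.tendsto_atTop] at hmean
  obtain ⟨N₁, hN₁⟩ := hmean (ε / 4) (by positivity)
  have hex := (ex_small hE hd).const_mul (c0 * 3 ^ (j + k))
  rw [mul_zero, Metric.tendsto_atTop] at hex
  obtain ⟨N₂, hN₂⟩ := hex (ε / 4) (by positivity)
  refine ⟨max (max N₀ N₁) (max N₂ 1), fun N hN => ?_⟩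
  have hN0 : N₀ ≤ N := by omega
  have hN1 : N₁ ≤ N := by omega
  have hN2 : N₂ ≤ N := by omega
  have hN' : (0 : ℝ) < N := by
    have : 0 < N := by omega
    exact_mod_cast this
  have g0 := hN₀ N hN0
  have g1 := hN₁ N hN1
  have g2 := hN₂ N hN2
  rw [Real.dist_eq] at g1 g2 ⊢
  rw [sub_zero, abs_of_nonneg (by positivity)] at g2
  set S : ℝ := ∑ a ∈ (Icc (1 : ℤ) N).filter (fun a => a ∉ Ex d ∧ (3 : ℤ) ^ j ∣ a - r), a * dsy (Pr d a) with hS
  set T : ℝ := ∑ a ∈ (Icc (1 : ℤ) N).filter (fun a => a ∉ Ex d ∧ (3 : ℤ) ^ j ∣ a - r),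
    c0 * Dn d (j + k) a with hT
  set U : ℝ := ∑ a ∈ Icc (1 : ℤ) N, f a with hU
  have e1 : |S - T| ≤ ε / 4 * N := by
    rw [hS, hT, ← Finset.sum_sub_distrib]
    refine (Finset.abs_sum_le_sum_abs _ _).trans (le_trans ?_ g0)
    refine Finset.sum_le_sum_of_subset_of_nonneg ?_ fun _ _ _ => abs_nonneg _
    intro a ha
    rw [mem_filter] at ha ⊢
    exact ⟨ha.1, ha.2.1⟩
  have e2 : |U - T| ≤ c0 * 3 ^ (j + k) * ((Icc (1 : ℤ) N).filter (fun a => a ∈ Ex d)).card := by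
    have h1 : T = ∑ a ∈ Icc (1 : ℤ) N, if a ∉ Ex d then f a else 0 := by
      rw [hT, Finset.sum_filter]
      refine Finset.sum_congr rfl fun a _ => ?_
      simp only [hf]
      by_cases h1 : a ∉ Ex d <;> by_cases h2 : (3 : ℤ) ^ j ∣ a - r <;> simp [h1, h2]
    have h2 : U - T = ∑ a ∈ (Icc (1 : ℤ) N).filter (fun a => a ∈ Ex d), f a := by
      rw [h1, hU, ← Finset.sum_sub_distrib, Finset.sum_filter]
      refine Finset.sum_congr rfl fun a _ => ?_
      by_cases h1 : a ∈ Ex d <;> simp [h1]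
    rw [h2]
    refine (Finset.abs_sum_le_sum_abs _ _).trans ?_
    rw [mul_comm, ← nsmul_eq_mul]
    refine Finset.sum_le_card_nsmul _ _ _ fun a _ => ?_
    simp only [hf]
    split_ifs
    · rw [abs_of_nonneg (mul_nonneg hc0.le (Dn_nn hD h3 _ _))]
      exact mul_le_mul_of_nonneg_left (Dn_le hD h3 _ _) hc0.le
    · rw [abs_zero]
      positivity
  have e3 : |U / N - c0 * (Dn d j r / 3 ^ j)| < ε / 4 := g1
  have e4 : S / N - c0 * (Dn d j r / 3 ^ j) =
      (S - T) / N - (U - T) / N + (U / N - c0 * (Dn d j r / 3 ^ j)) := by ring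
  have e5 : |(S - T) / N| ≤ ε / 4 := by
    rw [abs_div, abs_of_pos hN', div_le_iff₀ hN']
    exact e1
  have e6 : |(U - T) / N| < ε / 4 := by
    rw [abs_div, abs_of_pos hN']
    refine lt_of_le_of_lt (div_le_div_of_nonneg_right e2 hN'.le) ?_
    refine lt_of_le_of_lt (le_of_eq ?_) g2
    ring
  rw [e4]
  have := abs_lt.1 e3
  have := abs_le.1 e5
  have := abs_lt.1 e6
  rw [abs_lt]
  constructor <;> linarith

end Pool.Agent.Q153.PD3
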