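import Pool.Agent.Q153.PD3.Cla

/-! # Project PD, third part (jobs of helper153): the `3`-adic density -/

set_option autoImplicit false

namespace Pool.Agent.Q153.PD3

open Finset Filter Topology MeasureTheory
open Pool.Agent.H499R2.ND Pool.Agent.H320R2.PD Pool.Agent.Y856.PD
open Pool.Agent.Q74.PD

theorem Fz_nn (hD : S_Dlm) {d : ℤ} (hd : IsCoprime d 3) (n : ℕ) (z : ℤ_[3]) : 0 ≤ Fz d n z :=
  Dn_nn hD hd n _

theorem Fz_int (hH : S_Haa) (d : ℤ) (n : ℕ) : Integrable (Fz d n) haar3 :=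
  (hH.2.2.1 n (fun b => Dn d n (b : ℕ))).1

/-- `Fz d n` in terms of the residue modulo `3^m` -/
theorem Fz_appr (hD : S_Dlm) {d : ℤ} (hd : IsCoprime d 3) {n m : ℕ} (h : n ≤ m) (z : ℤ_[3]) :
    Fz d n z = Dn d n ((z.appr m : ℕ) : ℤ) := by
  obtain ⟨t, ht⟩ := PadicInt.dvd_appr_sub_appr z n m h
  have h1 : z.appr n ≤ z.appr m := PadicInt.appr_mono z h
  have h2 : z.appr m = z.appr n + 3 ^ n * t := by omega
  have h3 : ((z.appr m : ℕ) : ℤ) = ((z.appr n : ℕ) : ℤ) + 3 ^ n * (t : ℤ) := by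
    rw [h2]
    push_cast
    ring
  rw [h3, Dn_per hD hd]
  rfl

theorem Fz_diff (hH : S_Haa) (hD : S_Dlm) {d : ℤ} (hd : IsCoprime d 3) {n m : ℕ} (h : n ≤ m) :
    ∫ z, |Fz d m z - Fz d n z| ∂haar3 =
      (∑ b ∈ range (3 ^ m), |Dn d m b - Dn d n b|) / 3 ^ m := by
  rw [← (hH.2.2.1 m (fun b => |Dn d m (b : ℕ) - Dn d n (b : ℕ)|)).2]
  refine integral_congr_ae (Eventually.of_forall fun z => ?_)
  show |Fz d m z - Fz d n z| = |Dn d m ((z.appr m : ℕ) : ℤ) - Dn d n ((z.appr m : ℕ) : ℤ)|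
  rw [Fz_appr hD hd h, Fz_appr hD hd le_rfl]

/-- **JOB Den** -/
theorem den (hH : S_Haa) (hC : S_Cau) (hD : S_Dlm) : S_Den := by
  intro d hd h3
  have hP : IsProbabilityMeasure haar3 := hH.1
  have hF := Fz_int hH d
  set G : ℕ → (ℤ_[3] →₁[haar3] ℝ) := fun n => (hF n).toL1 (Fz d n) with hG
  have hdist : ∀ n m : ℕ, ‖G m - G n‖ = ∫ z, |Fz d m z - Fz d n z| ∂haar3 := by
    intro n m
    have h1 : G m - G n = ((hF m).sub (hF n)).toL1 _ := (Integrable.toL1_sub _ _ (hF m) (hF n)).symm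
    rw [h1, L1.norm_of_fun_eq_integral_norm]
    rfl
  have hcau : CauchySeq G := by
    rw [Metric.cauchySeq_iff']
    intro ε hε
    obtain ⟨n₀, hn₀⟩ := hC d hd h3 (ε / 2) (by positivity)
    refine ⟨n₀, fun m hm => ?_⟩
    rw [dist_eq_norm, hdist, Fz_diff hH hD h3 hm]
    have h1 := hn₀ n₀ m le_rfl hm
    rw [div_lt_iff₀ (by positivity)]
    have h2 : (0 : ℝ) < 3 ^ m := by positivity
    nlinarith
  obtain ⟨g, hg⟩ := cauchySeq_tendsto_of_complete hcau
  have hgm : Measurable g := (Lp.stronglyMeasurable g).measurable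
  have hgi : Integrable g haar3 := L1.integrable_coeFn g
  have hlim : Tendsto (fun n : ℕ => ∫ z, |Fz d n z - g z| ∂haar3) atTop (𝓝 0) := by
    have h1 := tendsto_iff_norm_sub_tendsto_zero.1 hg
    refine h1.congr fun n => ?_
    rw [L1.norm_eq_integral_norm]
    refine integral_congr_ae ?_
    filter_upwards [Lp.coeFn_sub (G n) g, (hF n).coeFn_toL1] with z h2 h3
    rw [h2, Pi.sub_apply, h3, Real.norm_eq_abs]
  set D : ℤ_[3] → ℝ := fun z => max (g z) 0 with hDd
  have hDm : Measurable D := hgm.max measurable_const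
  have hDi : Integrable D haar3 := hgi.pos_part
  have hlim2 : Tendsto (fun n : ℕ => ∫ z, |Fz d n z - D z| ∂haar3) atTop (𝓝 0) := by
    refine squeeze_zero (fun n => integral_nonneg fun z => abs_nonneg _) (fun n => ?_) hlim
    refine integral_mono ((hF n).sub hDi).abs ((hF n).sub hgi).abs fun z => ?_
    show |Fz d n z - max (g z) 0| ≤ |Fz d n z - g z|
    have h1 := abs_max_sub_max_le_abs (Fz d n z) (g z) 0
    rwa [max_eq_left (Fz_nn hD h3 n z)] at h1
  refine ⟨D, hDm, fun z => le_max_right _ _, hDi, hlim2, fun n b => ?_⟩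
  have h1 : Tendsto (fun m : ℕ => ∫ z in Cz n b, Fz d m z ∂haar3) atTop (𝓝 (∫ z in Cz n b, D z ∂haar3)) := by
    rw [tendsto_iff_norm_sub_tendsto_zero]
    refine squeeze_zero (fun m => norm_nonneg _) (fun m => ?_) hlim2
    rw [← integral_sub (hF m).integrableOn hDi.integrableOn]
    refine (norm_integral_le_integral_norm _).trans ?_
    exact setIntegral_le_integral ((hF m).sub hDi).norm (Eventually.of_forall fun z => norm_nonneg _)
  have h2 : ∀ m : ℕ, n ≤ m → ∫ z in Cz n b, Fz d m z ∂haar3 = Dn d n b / 3 ^ n := by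
    intro m hm
    obtain ⟨k, rfl⟩ := Nat.exists_eq_add_of_le hm
    have h4 := hH.2.2.2 n (n + k) b (fun r => Dn d (n + k) (r : ℕ)) hm
    have h5 := sum_class (n := n) (k := k) b (f := fun a => Dn d (n + k) a) (by
      intro a
      have := Dn_per1 hD h3 (n + k) a
      push_cast at this
      exact this)
    rw [h5, (hD d h3 n).2.2 k b] at h4
    refine (show ∫ z in Cz n b, Fz d (n + k) z ∂haar3 = _ from h4).trans ?_
    rw [pow_add]
    field_simp
  have h6 : Tendsto (fun m : ℕ => ∫ z in Cz n b, Fz d m z ∂haar3) atTop (𝓝 (Dn d n b / 3 ^ n)) :=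
    tendsto_atTop_of_eventually_const (i₀ := n) fun m hm => h2 m hm
  exact tendsto_nhds_unique h1 h6

end Pool.Agent.Q153.PD3
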