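import Pool.Agent.Q153.PD3.Den

/-! # Project PD, third part (jobs of helper153): the joint limit law -/

set_option autoImplicit false

namespace Pool.Agent.Q153.PD3

open Finset Filter Topology MeasureTheory
open Pool.Agent.H499R2.ND Pool.Agent.H320R2.PD Pool.Agent.Y856.PD
open Pool.Agent.Q74.PD
open scoped ENNReal NNReal

theorem zpow_eq (n : ℕ) : (((3 : ℕ) : ℝ)) ^ (-n : ℤ) = (1 / 3 : ℝ) ^ n := by
  rw [zpow_neg, zpow_natCast, one_div, inv_pow]
  norm_num

theorem norm_sub_appr (z : ℤ_[3]) (n : ℕ) : ‖z - ((z.appr n : ℕ) : ℤ_[3])‖ ≤ (1 / 3 : ℝ) ^ n := by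
  have h := (PadicInt.norm_le_pow_iff_mem_span_pow (z - ((z.appr n : ℕ) : ℤ_[3])) n).2
    (PadicInt.appr_spec n z)
  rwa [zpow_eq] at h

theorem norm_sub_emod (a : ℤ) (n : ℕ) : ‖(a : ℤ_[3]) - ((a % 3 ^ n : ℤ) : ℤ_[3])‖ ≤ (1 / 3 : ℝ) ^ n := by
  have h : ((3 : ℕ) ^ n : ℤ) ∣ a - a % 3 ^ n := by
    push_cast
    exact Int.dvd_self_sub_emod
  have h1 := (PadicInt.norm_int_le_pow_iff_dvd (p := 3) (k := a - a % 3 ^ n) (n := n)).2 h
  rw [zpow_eq] at h1
  rw [← Int.cast_sub]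
  exact h1

theorem lip_bd {f : ℤ_[3] × ℝ → ℝ} {L : ℝ≥0} (hf : LipschitzWith L f) {x y : ℤ_[3]} {s t : ℝ} {r : ℝ}
    (h : ‖x - y‖ ≤ r) : |f (x, s) - f (y, t)| ≤ (L + 1) * (r + |s - t|) := by
  have h1 := hf.dist_le_mul (x, s) (y, t)
  rw [Real.dist_eq] at h1
  have h2 : dist (x, s) (y, t) ≤ r + |s - t| := by
    rw [Prod.dist_eq]
    refine max_le ?_ ?_
    · rw [dist_eq_norm]
      have := abs_nonneg (s - t)
      linarith
    · rw [Real.dist_eq]
      have := (norm_nonneg _).trans h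
      linarith
  have h3 : (0 : ℝ) ≤ r + |s - t| := dist_nonneg.trans h2
  have h4 : (L : ℝ) * dist (x, s) (y, t) ≤ L * (r + |s - t|) := mul_le_mul_of_nonneg_left h2 L.2
  nlinarith

theorem lim_lip (hH : S_Haa) (hE : S_Exc) (hA : S_All) (hD : S_Dlm) {d : ℤ} (hd : Odd d)
    (h3 : IsCoprime d 3) {D : ℤ_[3] → ℝ} (hDm : Measurable D) (hDi : Integrable D haar3)
    (hlim : Tendsto (fun n : ℕ => ∫ z, |Fz d n z - D z| ∂haar3) atTop (𝓝 0))
    {f : ℤ_[3] × ℝ → ℝ} {L : ℝ≥0} (hf : LipschitzWith L f) {B : ℝ} (hB : ∀ x, |f x| ≤ B) :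
    Tendsto (fun N : ℕ => (∑ a ∈ Icc (1 : ℤ) N, f ((a : ℤ_[3]), a * dsy (Pr d a))) / N) atTop
      (𝓝 (∫ z, f (z, c0 * D z) ∂haar3)) := by
  classical
  have hP : IsProbabilityMeasure haar3 := hH.1
  have hc0 := c0_pos
  have hB0 : 0 ≤ B := (abs_nonneg _).trans (hB (0, 0))
  set K : ℝ := L + 1 with hK
  have hK0 : 0 < K := by positivity
  rw [Metric.tendsto_atTop]
  intro ε hε
  obtain ⟨n₀, hn₀⟩ := hA d hd h3 (ε / (8 * K)) (by positivity)
  obtain ⟨n₁, hn₁⟩ := (Metric.tendsto_atTop.1 hlim) (ε / (16 * K * c0)) (by positivity)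
  have hpow : Tendsto (fun n : ℕ => (1 / 3 : ℝ) ^ n) atTop (𝓝 0) :=
    tendsto_pow_atTop_nhds_zero_of_lt_one (by norm_num) (by norm_num)
  obtain ⟨n₂, hn₂⟩ := (Metric.tendsto_atTop.1 hpow) (ε / (16 * K)) (by positivity)
  set n := max n₀ (max n₁ n₂) with hn
  obtain ⟨N₀, hN₀⟩ := hn₀ n (by omega)
  have p1 : ∫ z, |Fz d n z - D z| ∂haar3 ≤ ε / (16 * K * c0) := by
    have := hn₁ n (by omega)
    rw [Real.dist_eq, sub_zero] at this
    exact (le_abs_self _).trans this.le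
  have p2 : (1 / 3 : ℝ) ^ n ≤ ε / (16 * K) := by
    have := hn₂ n (by omega)
    rw [Real.dist_eq, sub_zero] at this
    exact (le_abs_self _).trans this.le
  -- the periodic function
  set h : ℤ → ℝ := fun a => f (((a % 3 ^ n : ℤ) : ℤ_[3]), c0 * Dn d n a) with hh
  have hper : ∀ a, h (a + ((3 ^ n : ℕ) : ℤ)) = h a := by
    intro a
    simp only [hh]
    rw [Dn_per1 hD h3]
    have e : (a + ((3 ^ n : ℕ) : ℤ)) % 3 ^ n = a % 3 ^ n := by
      push_cast
      exact Int.add_emod_right _ _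
    rw [e]
  have hmean := mean_per (by positivity : 0 < 3 ^ n) hper
  have hJ := hH.2.2.1 n (fun b => f (((b : ℕ) : ℤ_[3]), c0 * Dn d n (b : ℕ)))
  have hval : (∑ b ∈ range (3 ^ n), h b) / ((3 ^ n : ℕ) : ℝ) =
      ∫ z : ℤ_[3], f (((z.appr n : ℕ) : ℤ_[3]), c0 * Fz d n z) ∂haar3 := by
    refine Eq.trans ?_ hJ.2.symm
    push_cast
    congr 1
    refine Finset.sum_congr rfl fun b hb => ?_
    rw [mem_range] at hb
    simp only [hh]
    have e : ((b : ℤ)) % 3 ^ n = b := Int.emod_eq_of_lt (by positivity) (by exact_mod_cast hb)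
    rw [e]
    norm_cast
  rw [hval] at hmean
  have hJi : Integrable (fun z : ℤ_[3] => f (((z.appr n : ℕ) : ℤ_[3]), c0 * Fz d n z)) haar3 := hJ.1
  have hIi : Integrable (fun z : ℤ_[3] => f (z, c0 * D z)) haar3 := by
    have hm : Measurable (fun z : ℤ_[3] => f (z, c0 * D z)) :=
      hf.continuous.measurable.comp (measurable_id.prodMk (hDm.const_mul c0))
    exact Integrable.of_bound hm.aestronglyMeasurable B (Eventually.of_forall fun z => hB _)
  have hFD : Integrable (fun z => |Fz d n z - D z|) haar3 := ((Fz_int hH d n).sub hDi).abs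
  have q1 : |∫ z : ℤ_[3], f (((z.appr n : ℕ) : ℤ_[3]), c0 * Fz d n z) ∂haar3 -
      ∫ z, f (z, c0 * D z) ∂haar3| ≤ ε / 8 := by
    rw [← integral_sub hJi hIi]
    refine (abs_integral_le_integral_abs).trans ?_
    have e1 : ∫ z : ℤ_[3], |f (((z.appr n : ℕ) : ℤ_[3]), c0 * Fz d n z) - f (z, c0 * D z)| ∂haar3 ≤
        ∫ z, (K * (ε / (16 * K)) + K * c0 * |Fz d n z - D z|) ∂haar3 := by
      refine integral_mono (hJi.sub hIi).abs ((integrable_const _).add (hFD.const_mul _)) fun z => ?_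
      have e2 := norm_sub_appr z n
      rw [norm_sub_rev] at e2
      have e3 := lip_bd hf (s := c0 * Fz d n z) (t := c0 * D z) (e2.trans p2)
      show |f (((z.appr n : ℕ) : ℤ_[3]), c0 * Fz d n z) - f (z, c0 * D z)| ≤
        K * (ε / (16 * K)) + K * c0 * |Fz d n z - D z|
      refine e3.trans (le_of_eq ?_)
      rw [← mul_sub, abs_mul, abs_of_pos hc0]
      ring
    refine e1.trans ?_
    have e2 : ∫ z, (K * (ε / (16 * K)) + K * c0 * |Fz d n z - D z|) ∂haar3 =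
        K * (ε / (16 * K)) + K * c0 * ∫ z, |Fz d n z - D z| ∂haar3 := by
      have e3 := integral_add (integrable_const (μ := haar3) (K * (ε / (16 * K)))) (hFD.const_mul (K * c0))
      rw [e3, integral_const, probReal_univ, one_smul, integral_const_mul]
    rw [e2]
    have e3 : K * c0 * ∫ z, |Fz d n z - D z| ∂haar3 ≤ K * c0 * (ε / (16 * K * c0)) :=
      mul_le_mul_of_nonneg_left p1 (by positivity)
    have e4 : K * c0 * (ε / (16 * K * c0)) = ε / 16 := by field_simp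
    have e5 : K * (ε / (16 * K)) = ε / 16 := by field_simp
    rw [e4] at e3
    rw [e5]
    linarith
  obtain ⟨N₁, hN₁⟩ := (Metric.tendsto_atTop.1 hmean) (ε / 8) (by positivity)
  have hex := (ex_small hE hd).const_mul (2 * B)
  rw [mul_zero] at hex
  obtain ⟨N₂, hN₂⟩ := (Metric.tendsto_atTop.1 hex) (ε / 8) (by positivity)
  refine ⟨max (max N₀ N₁) (max N₂ 1), fun N hN => ?_⟩
  have hN' : (0 : ℝ) < N := by
    have : 0 < N := by omega
    exact_mod_cast this
  have g0 := hN₀ N (by omega)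
  have g1 := hN₁ N (by omega)
  have g2 := hN₂ N (by omega)
  rw [Real.dist_eq] at g1 g2 ⊢
  rw [sub_zero, abs_of_nonneg (by positivity)] at g2
  set S : ℝ := ∑ a ∈ Icc (1 : ℤ) N, f ((a : ℤ_[3]), a * dsy (Pr d a)) with hS
  set T : ℝ := ∑ a ∈ Icc (1 : ℤ) N, h a with hT
  have e1 : |S - T| ≤ ε / 4 * N + 2 * B * ((Icc (1 : ℤ) N).filter (fun a => a ∈ Ex d)).card := by
    rw [hS, hT, ← Finset.sum_sub_distrib]
    refine (Finset.abs_sum_le_sum_abs _ _).trans ?_
    rw [← Finset.sum_filter_not_add_sum_filter _ (fun a => a ∈ Ex d)]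
    refine add_le_add ?_ ?_
    · have e2 : ∀ a ∈ (Icc (1 : ℤ) N).filter (fun a => a ∉ Ex d),
          |f ((a : ℤ_[3]), a * dsy (Pr d a)) - h a| ≤
            K * (ε / (16 * K)) + K * |a * dsy (Pr d a) - c0 * Dn d n a| := by
        intro a _
        have e3 := lip_bd hf (s := a * dsy (Pr d a)) (t := c0 * Dn d n a)
          ((norm_sub_emod a n).trans p2)
        refine e3.trans (le_of_eq ?_)
        rw [← mul_add]
      refine (Finset.sum_le_sum e2).trans ?_
      rw [Finset.sum_add_distrib, Finset.sum_const, ← Finset.mul_sum, nsmul_eq_mul]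
      have e3 : (((Icc (1 : ℤ) N).filter (fun a => a ∉ Ex d)).card : ℝ) ≤ N := by
        have := Finset.card_filter_le (Icc (1 : ℤ) N) (fun a => a ∉ Ex d)
        rw [Int.card_Icc] at this
        have h5 : ((N : ℤ) + 1 - 1).toNat = N := by simp
        rw [h5] at this
        exact_mod_cast this
      have e4 : K * (ε / (16 * K)) = ε / 16 := by field_simp
      have e5 : K * ∑ a ∈ (Icc (1 : ℤ) N).filter (fun a => a ∉ Ex d),
          |a * dsy (Pr d a) - c0 * Dn d n a| ≤ K * (ε / (8 * K) * N) :=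
        mul_le_mul_of_nonneg_left g0 hK0.le
      have e6 : K * (ε / (8 * K) * N) = ε / 8 * N := by field_simp
      rw [e4]
      rw [e6] at e5
      have e7 : (((Icc (1 : ℤ) N).filter (fun a => a ∉ Ex d)).card : ℝ) * (ε / 16) ≤ N * (ε / 16) :=
        mul_le_mul_of_nonneg_right e3 (by positivity)
      nlinarith
    · rw [mul_comm (2 * B), ← nsmul_eq_mul]
      refine Finset.sum_le_card_nsmul _ _ _ fun a _ => ?_
      have h1 := hB ((a : ℤ_[3]), a * dsy (Pr d a))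
      have h2 := hB (((a % 3 ^ n : ℤ) : ℤ_[3]), c0 * Dn d n a)
      have h4 := abs_sub (f ((a : ℤ_[3]), a * dsy (Pr d a))) (f (((a % 3 ^ n : ℤ) : ℤ_[3]), c0 * Dn d n a))
      show |f ((a : ℤ_[3]), a * dsy (Pr d a)) - f (((a % 3 ^ n : ℤ) : ℤ_[3]), c0 * Dn d n a)| ≤ 2 * B
      linarith
  have e2 : |(S - T) / N| ≤ ε / 4 + ε / 8 := by
    rw [abs_div, abs_of_pos hN', div_le_iff₀ hN']
    refine e1.trans ?_
    have h1 : 2 * B * ((Icc (1 : ℤ) N).filter (fun a => a ∈ Ex d)).card < ε / 8 * N := by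
      have h2 : 2 * B * ((((Icc (1 : ℤ) N).filter (fun a => a ∈ Ex d)).card : ℝ) / N) =
          (2 * B * ((Icc (1 : ℤ) N).filter (fun a => a ∈ Ex d)).card) / N := by ring
      rw [h2, div_lt_iff₀ hN'] at g2
      exact g2
    nlinarith
  have e3 : S / N - ∫ z, f (z, c0 * D z) ∂haar3 = (S - T) / N +
      (T / N - ∫ z : ℤ_[3], f (((z.appr n : ℕ) : ℤ_[3]), c0 * Fz d n z) ∂haar3) +
      (∫ z : ℤ_[3], f (((z.appr n : ℕ) : ℤ_[3]), c0 * Fz d n z) ∂haar3 -
        ∫ z, f (z, c0 * D z) ∂haar3) := by ring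
  rw [e3]
  have a1 := abs_le.1 e2
  have a2 := abs_lt.1 g1
  have a3 := abs_le.1 q1
  rw [abs_lt]
  constructor <;> linarith [a1.1, a1.2, a2.1, a2.2, a3.1, a3.2]

/-- the empirical measure -/
noncomputable def emp (d : ℤ) (N : ℕ) : Measure (ℤ_[3] × ℝ) :=
  ((N + 1 : ℕ) : ℝ≥0∞)⁻¹ • ∑ a ∈ Icc (1 : ℤ) ((N + 1 : ℕ) : ℤ), Measure.dirac ((a : ℤ_[3]), a * dsy (Pr d a))

theorem emp_prob (d : ℤ) (N : ℕ) : IsProbabilityMeasure (emp d N) := by
  constructor
  unfold emp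
  rw [Measure.smul_apply, Measure.finsetSum_apply]
  simp only [measure_univ, Finset.sum_const, Int.card_Icc, smul_eq_mul]
  have h : (((N + 1 : ℕ) : ℤ) + 1 - 1).toNat = N + 1 := by simp
  rw [h, nsmul_eq_mul, mul_one]
  exact ENNReal.inv_mul_cancel (by simp) (by simp)

theorem emp_int (d : ℤ) (N : ℕ) {f : ℤ_[3] × ℝ → ℝ} (hf : Continuous f) {B : ℝ} (hB : ∀ x, |f x| ≤ B) :
    ∫ x, f x ∂(emp d N) =
      (∑ a ∈ Icc (1 : ℤ) ((N + 1 : ℕ) : ℤ), f ((a : ℤ_[3]), a * dsy (Pr d a))) / ((N + 1 : ℕ) : ℝ) := by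
  unfold emp
  rw [integral_smul_measure, integral_finsetSum_measure]
  · rw [ENNReal.toReal_inv, ENNReal.toReal_natCast, smul_eq_mul, div_eq_inv_mul]
    congr 1
    refine Finset.sum_congr rfl fun a _ => ?_
    rw [integral_dirac' _ _ hf.stronglyMeasurable]
  · intro a _
    exact Integrable.of_bound hf.aestronglyMeasurable B (Eventually.of_forall fun x => hB x)

/-- **JOB Lim** -/
theorem lim (hH : S_Haa) (hE : S_Exc) (hA : S_All) (hD : S_Dlm) : S_Lim := by
  intro d hd h3 D hDm hDi hlim φ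
  have hP : IsProbabilityMeasure haar3 := hH.1
  have hm : Measurable (fun z : ℤ_[3] => (z, c0 * D z)) := measurable_id.prodMk (hDm.const_mul c0)
  have hP' : IsProbabilityMeasure (haar3.map (fun z : ℤ_[3] => (z, c0 * D z))) :=
    Measure.isProbabilityMeasure_map hm.aemeasurable
  let μ : ℕ → ProbabilityMeasure (ℤ_[3] × ℝ) := fun N => ⟨emp d N, emp_prob d N⟩
  let ν : ProbabilityMeasure (ℤ_[3] × ℝ) := ⟨haar3.map (fun z : ℤ_[3] => (z, c0 * D z)), hP'⟩
  have key : Tendsto μ atTop (𝓝 ν) := by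
    rw [tendsto_iff_forall_lipschitz_integral_tendsto]
    rintro f ⟨C, hC⟩ ⟨L, hL⟩
    have hB : ∀ x, |f x| ≤ |f (0, 0)| + C := by
      intro x
      have h1 := hC x (0, 0)
      rw [Real.dist_eq] at h1
      have h2 : |f x| ≤ |f x - f (0, 0)| + |f (0, 0)| := by
        have := abs_add_le (f x - f (0, 0)) (f (0, 0))
        rwa [sub_add_cancel] at this
      linarith
    have h1 := lim_lip hH hE hA hD hd h3 hDm hDi hlim hL hB
    have h2 : ∫ x, f x ∂(ν : Measure (ℤ_[3] × ℝ)) = ∫ z, f (z, c0 * D z) ∂haar3 :=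
      integral_map hm.aemeasurable hL.continuous.aestronglyMeasurable
    rw [h2]
    have h4 := (tendsto_add_atTop_iff_nat 1).2 h1
    refine h4.congr fun N => ?_
    exact (emp_int d N hL.continuous hB).symm
  have h1 := (ProbabilityMeasure.tendsto_iff_forall_integral_tendsto.1 key) φ
  have h2 : ∫ x, φ x ∂(ν : Measure (ℤ_[3] × ℝ)) = ∫ z, φ (z, c0 * D z) ∂haar3 :=
    integral_map hm.aemeasurable φ.continuous.aestronglyMeasurable
  rw [h2] at h1
  rw [← tendsto_add_atTop_iff_nat 1]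
  refine h1.congr fun N => ?_
  exact emp_int d N φ.continuous fun x => φ.norm_coe_le_norm x

end Pool.Agent.Q153.PD3
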