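import Pool.Agent.Q74.PD.Stm3
import Pool.Agent.W36.PDV

/-! # Project PD, third part (jobs of helper153): `D` is bounded below on the units -/

set_option autoImplicit false

namespace Pool.Agent.Q153.PD3

open Finset Filter Topology MeasureTheory
open Pool.Agent.H499R2.ND Pool.Agent.H320R2.PD Pool.Agent.Y856.PD
open Pool.Agent.Q74.PD

theorem Td_eq (d : ℤ) : Td d = Pool.Agent.H366R2.KGen.TK d := rfl

theorem Pr_EInv (d a : ℤ) {y : ℝ} (hy : (a : ℝ) ≤ y) : EInv y d (Pr d a) := by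
  intro x hx
  constructor
  · rintro ⟨j, hj⟩
    rcases j with _ | j
    · exfalso
      have h1 : x = a := hj
      rw [h1] at hx
      linarith
    · refine ⟨j, ?_⟩
      rwa [Function.iterate_succ_apply] at hj
  · rintro ⟨j, hj⟩
    exact ⟨j + 1, by rwa [Function.iterate_succ_apply]⟩

theorem dsy_low : ∃ c : ℝ, 0 < c ∧ ∀ d : ℤ, Odd d → IsCoprime d 3 → ∀ a : ℤ, 1 ≤ a → |d| ≤ a →
    ¬ (3 : ℤ) ∣ a → c ≤ a * dsy (Pr d a) := by
  obtain ⟨c, C, hc, -, h⟩ := Pool.Agent.W36.PDU.mainKall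
  refine ⟨c / 2, by positivity, fun d hd h3 a ha hda ha3 => ?_⟩
  have haR : (0 : ℝ) < a := by exact_mod_cast ha
  have hdaR : |(d : ℝ)| ≤ a := by exact_mod_cast hda
  have hd3 : ¬ (3 : ℤ) ∣ d := by
    intro h1
    have h2 := Int.isUnit_iff.1 (h3.isUnit_of_dvd' h1 dvd_rfl)
    omega
  obtain ⟨l, hl⟩ := density_existsA hd h3 hdaR (Pr_EInv d a le_rfl)
  have hds : dsy (Pr d a) = l := hl.limUnder_eq
  have hlow : c / (2 * a) ≤ l := by
    refine ge_of_tendsto hl ?_
    filter_upwards [eventually_ge_atTop (2 * (a : ℝ))] with X hX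
    have hX0 : 0 < X := by linarith
    obtain ⟨S, hS, hcard⟩ := h d a (Int.odd_iff.1 hd) hd3 ha3 (X / 2)
      (by rw [abs_of_pos haR]; linarith) (by linarith)
    have h1 : S ⊆ pos (Pr d a) X := by
      intro z hz
      obtain ⟨-, h2, h4, j, -, h5⟩ := hS z hz
      have hz0 : 0 < z := by
        by_contra h6
        have h7 : z * a ≤ 0 := mul_nonpos_of_nonpos_of_nonneg (by omega) (by omega)
        omega
      rw [mem_pos]
      refine ⟨⟨by omega, ?_⟩, j, h5⟩
      have := (le_abs_self (z : ℝ)).trans h2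
      linarith
    have h2 : (S.card : ℝ) ≤ G (Pr d a) X := by
      unfold G
      exact_mod_cast Finset.card_le_card h1
    rw [abs_of_pos haR, max_eq_left hdaR] at hcard
    rw [le_div_iff₀ hX0]
    refine le_trans (le_of_eq ?_) (hcard.trans h2)
    field_simp
  rw [hds]
  have h1 : (a : ℝ) * (c / (2 * a)) ≤ a * l := mul_le_mul_of_nonneg_left hlow haR.le
  have h2 : (a : ℝ) * (c / (2 * a)) = c / 2 := by field_simp
  rwa [h2] at h1

noncomputable def psi (z : ℤ_[3]) : ℝ := max 0 ((3 * ‖z‖ - 1) / 2)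

theorem psi_cont : Continuous psi := by
  unfold psi
  fun_prop

theorem psi_nn (z : ℤ_[3]) : 0 ≤ psi z := le_max_left _ _

theorem psi_le (z : ℤ_[3]) : psi z ≤ 1 := by
  unfold psi
  refine max_le zero_le_one ?_
  have := PadicInt.norm_le_one z
  linarith

theorem psi_one {z : ℤ_[3]} (h : ‖z‖ = 1) : psi z = 1 := by
  unfold psi
  rw [h]
  norm_num

theorem psi_zero {a : ℤ} (h : (3 : ℤ) ∣ a) : psi (a : ℤ_[3]) = 0 := by
  unfold psi
  have h1 := (PadicInt.norm_int_le_pow_iff_dvd (p := 3) (k := a) (n := 1)).2 (by simpa using h)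
  have h2 : (((3 : ℕ) : ℝ)) ^ (-((1 : ℕ) : ℤ)) = 1 / 3 := by norm_num
  rw [h2] at h1
  refine max_eq_left ?_
  linarith

/-- the test function -/
noncomputable def tst (κ : ℝ) (x : ℤ_[3] × ℝ) : ℝ := psi x.1 * min 1 (max 0 (κ - x.2))

theorem tst_cont (κ : ℝ) : Continuous (tst κ) := by
  unfold tst
  have := psi_cont
  fun_prop

theorem tst_nn (κ : ℝ) (x : ℤ_[3] × ℝ) : 0 ≤ tst κ x :=
  mul_nonneg (psi_nn _) (le_min zero_le_one (le_max_left _ _))

theorem tst_le (κ : ℝ) (x : ℤ_[3] × ℝ) : tst κ x ≤ 1 := by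
  have h1 := psi_le x.1
  have h2 : min 1 (max 0 (κ - x.2)) ≤ 1 := min_le_left _ _
  have h3 : 0 ≤ min 1 (max 0 (κ - x.2)) := le_min zero_le_one (le_max_left _ _)
  have h4 := psi_nn x.1
  unfold tst
  nlinarith

theorem tst_norm (κ : ℝ) (x : ℤ_[3] × ℝ) : ‖tst κ x‖ ≤ 1 := by
  rw [Real.norm_of_nonneg (tst_nn κ x)]
  exact tst_le κ x

/-- **JOB Low** -/
theorem low (hL : S_Lim) : S_Low := by
  obtain ⟨c, hc, hlow⟩ := dsy_low
  have hc0 : 0 < c0 := by
    unfold c0
    have : 0 < Real.log (4 / 3) := Real.log_pos (by norm_num)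
    positivity
  refine ⟨c / c0, by positivity, fun d hd h3 D hDm hDi hD0 hlim => ?_⟩
  have hfin : IsFiniteMeasure haar3 := by
    unfold haar3
    infer_instance
  set φ : BoundedContinuousFunction (ℤ_[3] × ℝ) ℝ :=
    BoundedContinuousFunction.ofNormedAddCommGroup (tst c) (tst_cont c) 1 (tst_norm c) with hφ
  have h1 := hL d hd h3 D hDm hDi hlim φ
  have h2 : Tendsto (fun N : ℕ => (∑ a ∈ Icc (1 : ℤ) N, φ ((a : ℤ_[3]), a * dsy (Pr d a))) / N) atTop (𝓝 0) := by
    have h4 : Tendsto (fun N : ℕ => (d.natAbs : ℝ) / (N : ℝ)) atTop (𝓝 0) :=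
      tendsto_const_div_atTop_nhds_zero_nat _
    refine squeeze_zero (fun N => ?_) (fun N => ?_) h4
    · exact div_nonneg (Finset.sum_nonneg fun a _ => tst_nn c _) (Nat.cast_nonneg _)
    · refine div_le_div_of_nonneg_right ?_ (Nat.cast_nonneg _)
      have h5 : ∑ a ∈ Icc (1 : ℤ) N, φ ((a : ℤ_[3]), a * dsy (Pr d a)) ≤
          ∑ a ∈ Icc (1 : ℤ) N, if a ∈ Icc (1 : ℤ) d.natAbs then (1 : ℝ) else 0 := by
        refine Finset.sum_le_sum fun a ha => ?_
        rw [mem_Icc] at ha
        show tst c ((a : ℤ_[3]), a * dsy (Pr d a)) ≤ _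
        split_ifs with h6
        · exact tst_le c _
        · rw [mem_Icc] at h6
          refine le_of_eq ?_
          unfold tst
          by_cases h7 : (3 : ℤ) ∣ a
          · rw [psi_zero h7, zero_mul]
          · have h8 : |d| ≤ a := by
              rw [Int.abs_eq_natAbs]
              omega
            have h9 := hlow d hd h3 a ha.1 h8 h7
            have h10 : max 0 (c - a * dsy (Pr d a)) = 0 := max_eq_left (by linarith)
            show psi (a : ℤ_[3]) * min 1 (max 0 (c - a * dsy (Pr d a))) = 0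
            rw [h10, min_eq_right zero_le_one, mul_zero]
      refine h5.trans ?_
      rw [← Finset.sum_filter, Finset.sum_const, nsmul_eq_mul, mul_one]
      have h6 : ((Icc (1 : ℤ) N).filter fun a => a ∈ Icc (1 : ℤ) d.natAbs).card ≤
          (Icc (1 : ℤ) d.natAbs).card := by
        apply Finset.card_le_card
        intro a ha
        rw [Finset.mem_filter] at ha
        exact ha.2
      rw [Int.card_Icc] at h6
      have h7 : ((d.natAbs : ℤ) + 1 - 1).toNat = d.natAbs := by omega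
      rw [h7] at h6
      exact_mod_cast h6
  have h4 : ∫ z, φ (z, c0 * D z) ∂haar3 = 0 := tendsto_nhds_unique h1 h2
  have hm : Measurable (fun z : ℤ_[3] => tst c (z, c0 * D z)) :=
    (tst_cont c).measurable.comp (measurable_id.prodMk (hDm.const_mul c0))
  have hi : Integrable (fun z : ℤ_[3] => tst c (z, c0 * D z)) haar3 :=
    Integrable.of_bound hm.aestronglyMeasurable 1 (Eventually.of_forall fun z => tst_norm c _)
  have h5 := (integral_eq_zero_iff_of_nonneg (fun z => tst_nn c _) hi).1 h4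
  filter_upwards [h5] with z hz hz1
  have h6 : psi z * min 1 (max 0 (c - c0 * D z)) = 0 := hz
  rw [psi_one hz1, one_mul] at h6
  have h7 : c - c0 * D z ≤ 0 := by
    by_contra h8
    push Not at h8
    have h9 : 0 < min 1 (max 0 (c - c0 * D z)) := lt_min one_pos (lt_max_of_lt_right h8)
    linarith
  rw [div_le_iff₀ hc0]
  linarith

end Pool.Agent.Q153.PD3
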